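import Pool.Agent.Helper63.Sey4.Goals

/-!
# SEY4, packet CANP: bad partial assignments for random bijections
-/

namespace Pool.Agent.Helper3.Sey4

open Finset
open Pool.Agent.Helper63.Sey4
open Pool.Agent.Helper41.Girth4 (Pr Pr_eq_card)

/-! ### The switching map -/

section Switch

variable {C V W : Type} (cv : V → C) (cw : W → C) (b : Finset (V × W))
  (ch : (p : {p // p ∈ b}) → {w // cw w = cv p.1.1})

open Classical in
/-- the product of the commuting swaps of `p.2` and `ch p` -/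
noncomputable def sg (w : W) : W :=
  if h : ∃ p : {p // p ∈ b}, cv p.1.1 = cw w then
    Equiv.swap h.choose.1.2 (ch h.choose).1 w else w

open Classical in
theorem sg_eq (hb : ∀ p ∈ b, ∀ q ∈ b, cv p.1 = cv q.1 → p = q) (p : {p // p ∈ b}) (w : W)
    (h : cv p.1.1 = cw w) : sg cv cw b ch w = Equiv.swap p.1.2 (ch p).1 w := by
  have h' : ∃ p : {p // p ∈ b}, cv p.1.1 = cw w := ⟨p, h⟩
  have h1 : h'.choose = p :=
    Subtype.ext (hb _ h'.choose.2 _ p.2 (h'.choose_spec.trans h.symm))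
  unfold sg
  rw [dif_pos h', h1]

theorem sg_ne (w : W) (h : ∀ p : {p // p ∈ b}, cv p.1.1 ≠ cw w) : sg cv cw b ch w = w := by
  unfold sg
  rw [dif_neg]
  rintro ⟨p, hp⟩
  exact h p hp

theorem cw_sg (hcl : ∀ p ∈ b, cv p.1 = cw p.2)
    (hb : ∀ p ∈ b, ∀ q ∈ b, cv p.1 = cv q.1 → p = q) (w : W) :
    cw (sg cv cw b ch w) = cw w := by
  classical
  by_cases h : ∃ p : {p // p ∈ b}, cv p.1.1 = cw w
  · obtain ⟨p, hp⟩ := h
    rw [sg_eq cv cw b ch hb p w hp]
    rw [Equiv.swap_apply_def]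
    split_ifs with h1 h2
    · rw [(ch p).2, hp]
    · rw [← hcl p.1 p.2, hp]
    · rfl
  · push Not at h
    rw [sg_ne cv cw b ch w h]

theorem sg_invol (hcl : ∀ p ∈ b, cv p.1 = cw p.2)
    (hb : ∀ p ∈ b, ∀ q ∈ b, cv p.1 = cv q.1 → p = q) :
    Function.Involutive (sg cv cw b ch) := by
  classical
  intro w
  by_cases h : ∃ p : {p // p ∈ b}, cv p.1.1 = cw w
  · obtain ⟨p, hp⟩ := h
    rw [sg_eq cv cw b ch hb p (sg cv cw b ch w)
      (by rw [cw_sg cv cw b ch hcl hb, hp]), sg_eq cv cw b ch hb p w hp]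
    exact DFunLike.congr_fun (Equiv.swap_swap p.1.2 (ch p).1) w
  · push Not at h
    rw [sg_ne cv cw b ch w h, sg_ne cv cw b ch w h]

end Switch

/-! ### Products -/

theorem prod_mul_prod_le_union {I : Type*} [DecidableEq I] (u v : Finset I) (f : I → ℝ)
    (h0 : ∀ i, 0 ≤ f i) (h1 : ∀ i, f i ≤ 1) :
    (∏ i ∈ u, f i) * ∏ i ∈ v, f i ≤ ∏ i ∈ u ∪ v, f i := by
  rw [← Finset.prod_union_inter]
  exact mul_le_of_le_one_right (prod_nonneg fun i _ => h0 i)
    (prod_le_one (fun i _ => h0 i) fun i _ => h1 i)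

theorem prod_biUnion_ge {I J : Type*} [DecidableEq I] (t : Finset J) (u : J → Finset I)
    (f : I → ℝ) (h0 : ∀ i, 0 ≤ f i) (h1 : ∀ i, f i ≤ 1) :
    ∏ j ∈ t, ∏ i ∈ u j, f i ≤ ∏ i ∈ t.biUnion u, f i := by
  classical
  induction t using Finset.induction_on with
  | empty => simp
  | insert j t hj ih =>
    rw [Finset.prod_insert hj, Finset.biUnion_insert]
    refine le_trans ?_ (prod_mul_prod_le_union _ _ f h0 h1)
    exact mul_le_mul_of_nonneg_left ih (prod_nonneg fun i _ => h0 i)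

theorem prod_subset_ge {I : Type*} [DecidableEq I] (s t : Finset I) (hst : s ⊆ t) (f : I → ℝ)
    (h0 : ∀ i, 0 ≤ f i) (h1 : ∀ i, f i ≤ 1) : ∏ i ∈ t, f i ≤ ∏ i ∈ s, f i := by
  rw [← Finset.prod_sdiff hst]
  exact mul_le_of_le_one_left (prod_nonneg fun i _ => h0 i)
    (prod_le_one (fun i _ => h0 i) fun i _ => h1 i)

theorem one_sub_sum_le {I : Type*} (s : Finset I) (x : I → ℝ) (h0 : ∀ i, 0 ≤ x i)
    (h1 : ∀ i, x i ≤ 1) : 1 - ∑ i ∈ s, x i ≤ ∏ i ∈ s, (1 - x i) := by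
  classical
  induction s using Finset.induction_on with
  | empty => simp
  | insert i s hi ih =>
    rw [Finset.prod_insert hi, Finset.sum_insert hi]
    have h2 : ∏ j ∈ s, (1 - x j) ≤ 1 :=
      prod_le_one (fun j _ => by linarith [h1 j]) fun j _ => by linarith [h0 j]
    have h3 := mul_le_mul_of_nonneg_left h2 (h0 i)
    nlinarith

/-! ### The class preserving bijections -/

open Classical in
theorem exists_pres {C V W : Type} [Fintype V] [Fintype W] (cv : V → C) (cw : W → C)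
    (nn : C → ℕ) (hv : ∀ c, (univ.filter (fun v => cv v = c)).card = nn c)
    (hw : ∀ c, (univ.filter (fun w => cw w = c)).card = nn c) :
    ∃ π : V ≃ W, ∀ v, cw (π v) = cv v := by
  have h1 : ∀ c, Nonempty ({v // cv v = c} ≃ {w // cw w = c}) := by
    intro c
    apply Fintype.card_eq.mp
    rw [Fintype.card_subtype, Fintype.card_subtype, hv, hw]
  let e : ∀ c, {v // cv v = c} ≃ {w // cw w = c} := fun c => (h1 c).some
  refine ⟨(Equiv.sigmaFiberEquiv cv).symm.trans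
    ((Equiv.sigmaCongrRight e).trans (Equiv.sigmaFiberEquiv cw)), ?_⟩
  intro v
  exact ((e (cv v)) ⟨v, rfl⟩).2

open Classical in
theorem card_switch {C V W : Type} [Fintype V] [Fintype W] (cv : V → C) (cw : W → C)
    (nn : C → ℕ) (hw : ∀ c, (univ.filter (fun w => cw w = c)).card = nn c)
    (b : Finset (V × W)) (hcl : ∀ p ∈ b, cv p.1 = cw p.2)
    (hb : ∀ p ∈ b, ∀ q ∈ b, cv p.1 = cv q.1 → p = q) (S : Finset (Finset (V × W)))
    (hS : ∀ b' ∈ S, ∀ p ∈ b, ∀ q ∈ b', p.1 ≠ q.1 ∧ p.2 ≠ q.2) :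
    Nat.card {π : {π : V ≃ W // ∀ v, cw (π v) = cv v} //
        (∀ p ∈ b, π.1 p.1 = p.2) ∧ ∀ b' ∈ S, ¬ ∀ p ∈ b', π.1 p.1 = p.2} *
        ∏ p ∈ b, nn (cv p.1) ≤
      Nat.card {π : {π : V ≃ W // ∀ v, cw (π v) = cv v} //
        ∀ b' ∈ S, ¬ ∀ p ∈ b', π.1 p.1 = p.2} := by
  have h1 : ∏ p ∈ b, nn (cv p.1) = Nat.card ((p : {p // p ∈ b}) → {w // cw w = cv p.1.1}) := by
    rw [Nat.card_pi, ← Finset.prod_coe_sort b (fun p => nn (cv p.1))]
    apply Finset.prod_congr rfl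
    intro p _
    rw [Nat.card_eq_fintype_card, Fintype.card_subtype, hw]
  rw [h1, ← Nat.card_prod]
  let g : ({π : {π : V ≃ W // ∀ v, cw (π v) = cv v} //
        (∀ p ∈ b, π.1 p.1 = p.2) ∧ ∀ b' ∈ S, ¬ ∀ p ∈ b', π.1 p.1 = p.2} ×
        ((p : {p // p ∈ b}) → {w // cw w = cv p.1.1})) →
      {π : {π : V ≃ W // ∀ v, cw (π v) = cv v} //
        ∀ b' ∈ S, ¬ ∀ p ∈ b', π.1 p.1 = p.2} := fun x =>
    ⟨⟨x.1.1.1.trans (sg_invol cv cw b x.2 hcl hb).toPerm, by
        intro v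
        show cw (sg cv cw b x.2 (x.1.1.1 v)) = cv v
        rw [cw_sg cv cw b x.2 hcl hb]
        exact x.1.1.2 v⟩, by
      intro b' hb' hcon
      apply x.1.2.2 b' hb'
      intro q hq
      have h2 : sg cv cw b x.2 (x.1.1.1 q.1) = q.2 := hcon q hq
      by_cases h : ∃ p : {p // p ∈ b}, cv p.1.1 = cw (x.1.1.1 q.1)
      · obtain ⟨p, hp⟩ := h
        rw [sg_eq cv cw b x.2 hb p _ hp] at h2
        have h3 := hS b' hb' p.1 p.2 q hq
        rw [Equiv.swap_apply_def] at h2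
        split_ifs at h2 with h4 h5
        · exfalso
          apply h3.1
          have h6 := x.1.2.1 p.1 p.2
          rw [← h4] at h6
          exact x.1.1.1.injective h6
        · exact absurd h2 h3.2
        · exact h2
      · push Not at h
        rw [sg_ne cv cw b x.2 _ h] at h2
        exact h2⟩
  apply Nat.card_le_card_of_injective g
  rintro ⟨⟨⟨π, hπ⟩, hA, hF⟩, ch⟩ ⟨⟨⟨π', hπ'⟩, hA', hF'⟩, ch'⟩ heq
  have h3 : ∀ v, sg cv cw b ch (π v) = sg cv cw b ch' (π' v) := by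
    intro v
    have h4 := congrArg (fun y => y.1.1 v) heq
    exact h4
  have h5 : ch = ch' := by
    funext p
    apply Subtype.ext
    have h6 := h3 p.1.1
    have h7 : π p.1.1 = p.1.2 := hA p.1 p.2
    have h7' : π' p.1.1 = p.1.2 := hA' p.1 p.2
    rw [h7, h7', sg_eq cv cw b ch hb p _ (hcl p.1 p.2), sg_eq cv cw b ch' hb p _ (hcl p.1 p.2),
      Equiv.swap_apply_left, Equiv.swap_apply_left] at h6
    exact h6
  subst h5
  have h8 : π = π' := by
    apply Equiv.ext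
    intro v
    exact (sg_invol cv cw b ch hcl hb).injective (h3 v)
  subst h8
  rfl

open Classical in
theorem goalCANP : GoalLOPS → GoalCANP := by
  intro hL C V W _ _ cv cw nn hv hw B hB hsv hsw
  obtain ⟨π0, hπ0⟩ := exists_pres cv cw nn hv hw
  let Ω : Type := {π : V ≃ W // ∀ v, cw (π v) = cv v}
  let I : Type := {b // b ∈ B}
  have : Nonempty Ω := ⟨⟨π0, hπ0⟩⟩
  have : Finite Ω := Subtype.finite
  have : Fintype Ω := Fintype.ofFinite Ω
  let A : I → Ω → Prop := fun b π => ∀ p ∈ b.1, π.1 p.1 = p.2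
  let X : Finset (V × W) → ℝ := fun b => ∏ p ∈ b, (2 / (nn (cv p.1) : ℝ))
  let P : Finset (V × W) → ℝ := fun b => ∏ p ∈ b, (1 / (nn (cv p.1) : ℝ))
  let Nb : I → I → Prop := fun b b' => ∃ p ∈ b.1, ∃ q ∈ b'.1, p.1 = q.1 ∨ p.2 = q.2
  have hX0 : ∀ b, 0 ≤ X b := fun b => prod_nonneg fun p _ => by positivity
  have hnn : ∀ v : V, 1 ≤ nn (cv v) := by
    intro v
    rw [← hv (cv v)]
    exact card_pos.mpr ⟨v, by simp⟩
  have hX1 : ∀ b ∈ B, X b ≤ 1 / 4 := by
    intro b hb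
    obtain ⟨p, hp⟩ := (hB b hb).1
    refine le_trans ?_ (hsv p.1)
    exact Finset.single_le_sum (f := X) (fun b _ => hX0 b)
      (mem_filter.mpr ⟨hb, p.2, by simpa using hp⟩)
  have hPX : ∀ b, P b = X b * (1 / 2 : ℝ) ^ b.card := by
    intro b
    show ∏ p ∈ b, (1 / (nn (cv p.1) : ℝ)) = (∏ p ∈ b, (2 / (nn (cv p.1) : ℝ))) * _
    rw [← Finset.prod_const, ← Finset.prod_mul_distrib]
    apply Finset.prod_congr rfl
    intro p _
    ring
  suffices hsuff : ∃ π : Ω, ∀ b : I, ¬ A b π by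
    obtain ⟨π, hπ⟩ := hsuff
    refine ⟨π.1, π.2, ?_⟩
    intro b hb
    have h1 := hπ ⟨b, hb⟩
    by_contra h2
    push Not at h2
    exact h1 h2
  refine hL Ω I A (fun b => P b.1) (fun b => X b.1) Nb
    (fun b => ⟨hX0 b.1, by linarith [hX1 b.1 b.2]⟩) ?_ ?_
  · intro b S hS
    have h1 := card_switch cv cw nn hw b.1 (hB b.1 b.2).2.1 (hB b.1 b.2).2.2
      (S.image Subtype.val) (by
        intro b' hb' p hp q hq
        obtain ⟨j, hj, rfl⟩ := mem_image.mp hb'
        have h2 := hS j hj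
        constructor
        · intro h3
          exact h2 ⟨p, hp, q, hq, Or.inl h3⟩
        · intro h3
          exact h2 ⟨p, hp, q, hq, Or.inr h3⟩)
    have h2 : ∀ π : Ω, (∀ b' ∈ S.image Subtype.val, ¬ ∀ p ∈ b', π.1 p.1 = p.2) ↔
        ∀ j ∈ S, ¬ A j π := by
      intro π
      constructor
      · intro h j hj
        exact h j.1 (mem_image_of_mem _ hj)
      · intro h b' hb'
        obtain ⟨j, hj, rfl⟩ := mem_image.mp hb'
        exact h j hj
    have h3 : Nat.card {π : Ω // A b π ∧ ∀ j ∈ S, ¬ A j π} * ∏ p ∈ b.1, nn (cv p.1) ≤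
        Nat.card {π : Ω // ∀ j ∈ S, ¬ A j π} := by
      have e1 : Nat.card {π : Ω // A b π ∧ ∀ j ∈ S, ¬ A j π} =
          Nat.card {π : Ω // (∀ p ∈ b.1, π.1 p.1 = p.2) ∧
            ∀ b' ∈ S.image Subtype.val, ¬ ∀ p ∈ b', π.1 p.1 = p.2} :=
        Nat.card_congr (Equiv.subtypeEquivRight fun π => and_congr_right fun _ => (h2 π).symm)
      have e2 : Nat.card {π : Ω // ∀ j ∈ S, ¬ A j π} =
          Nat.card {π : Ω // ∀ b' ∈ S.image Subtype.val, ¬ ∀ p ∈ b', π.1 p.1 = p.2} :=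
        Nat.card_congr (Equiv.subtypeEquivRight fun π => (h2 π).symm)
      rw [e1, e2]
      exact h1
    have h4 : (0 : ℝ) < ∏ p ∈ b.1, (nn (cv p.1) : ℝ) :=
      prod_pos fun p _ => by exact_mod_cast hnn p.1
    have h5 : P b.1 = 1 / ∏ p ∈ b.1, (nn (cv p.1) : ℝ) := by
      show ∏ p ∈ b.1, (1 / (nn (cv p.1) : ℝ)) = _
      rw [Finset.prod_div_distrib, Finset.prod_const_one]
    have h6 : (Nat.card {π : Ω // A b π ∧ ∀ j ∈ S, ¬ A j π} : ℝ) *
        ∏ p ∈ b.1, (nn (cv p.1) : ℝ) ≤ (Nat.card {π : Ω // ∀ j ∈ S, ¬ A j π} : ℝ) := by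
      exact_mod_cast h3
    show (Nat.card {π : Ω // A b π ∧ ∀ j ∈ S, ¬ A j π} : ℝ) / Nat.card Ω ≤
      P b.1 * ((Nat.card {π : Ω // ∀ j ∈ S, ¬ A j π} : ℝ) / Nat.card Ω)
    rw [h5, ← mul_div_assoc]
    apply div_le_div_of_nonneg_right _ (Nat.cast_nonneg _)
    rw [one_div, inv_mul_eq_div, le_div_iff₀ h4]
    exact h6
  · intro b
    refine le_trans (b := X b.1 * ∏ j ∈ univ.filter (fun j => Nb b j ∧ j ≠ b), (1 - X j.1))
      ?_ (le_of_eq ?_)
    swap
    · congr 1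
      apply Finset.prod_congr _ (fun _ _ => rfl)
      ext j
      simp only [mem_filter, mem_univ, true_and]
    show P b.1 ≤ _
    rw [hPX]
    apply mul_le_mul_of_nonneg_left _ (hX0 _)
    let f : Finset (V × W) → ℝ := fun b' => if b' ∈ B then 1 - X b' else 1
    have hf0 : ∀ b', 0 ≤ f b' := by
      intro b'
      show 0 ≤ if b' ∈ B then 1 - X b' else 1
      split_ifs with h
      · linarith [hX1 b' h]
      · norm_num
    have hf1 : ∀ b', f b' ≤ 1 := by
      intro b'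
      show (if b' ∈ B then 1 - X b' else 1) ≤ 1
      split_ifs with h
      · linarith [hX0 b']
      · norm_num
    have h1 : ∏ j ∈ univ.filter (fun j => Nb b j ∧ j ≠ b), (1 - X j.1) =
        ∏ b' ∈ (univ.filter (fun j => Nb b j ∧ j ≠ b)).image Subtype.val, f b' := by
      rw [Finset.prod_image (fun x _ y _ h => Subtype.ext h)]
      apply Finset.prod_congr rfl
      intro j _
      show _ = if j.1 ∈ B then 1 - X j.1 else 1
      rw [if_pos j.2]
    rw [h1]
    let u : V × W → Finset (Finset (V × W)) := fun p =>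
      B.filter (fun b => ∃ w, (p.1, w) ∈ b) ∪ B.filter (fun b => ∃ v, (v, p.2) ∈ b)
    have h2 : (univ.filter (fun j => Nb b j ∧ j ≠ b)).image Subtype.val ⊆ b.1.biUnion u := by
      intro b' hb'
      obtain ⟨j, hj, rfl⟩ := mem_image.mp hb'
      obtain ⟨p, hp, q, hq, h3⟩ := (mem_filter.mp hj).2.1
      refine mem_biUnion.mpr ⟨p, hp, ?_⟩
      rcases h3 with h3 | h3
      · apply mem_union_left
        refine mem_filter.mpr ⟨j.2, q.2, ?_⟩
        rw [h3]
        exact hq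
      · apply mem_union_right
        refine mem_filter.mpr ⟨j.2, q.1, ?_⟩
        rw [h3]
        exact hq
    refine le_trans ?_ (prod_subset_ge _ _ h2 f hf0 hf1)
    refine le_trans ?_ (prod_biUnion_ge _ _ f hf0 hf1)
    rw [← Finset.prod_const]
    apply Finset.prod_le_prod (fun _ _ => by norm_num)
    intro p _
    refine le_trans ?_ (prod_mul_prod_le_union _ _ f hf0 hf1)
    have h4 : ∀ R ⊆ B, ∑ b ∈ R, X b ≤ 1 / 4 → (3 / 4 : ℝ) ≤ ∏ b ∈ R, f b := by
      intro R hR hQ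
      have h5 : ∏ b ∈ R, f b = ∏ b ∈ R, (1 - (1 - f b)) :=
        Finset.prod_congr rfl fun b _ => by ring
      rw [h5]
      refine le_trans ?_ (one_sub_sum_le _ (fun b => 1 - f b)
        (fun b => by linarith [hf1 b]) fun b => by linarith [hf0 b])
      have h6 : ∑ b ∈ R, (1 - f b) = ∑ b ∈ R, X b := by
        apply Finset.sum_congr rfl
        intro b hb
        show 1 - (if b ∈ B then 1 - X b else 1) = X b
        rw [if_pos (hR hb)]
        ring
      rw [h6]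
      linarith
    have h7 := h4 _ (filter_subset _ _) (hsv p.1)
    have h8 := h4 _ (filter_subset _ _) (hsw p.2)
    have h9 := mul_le_mul h7 h8 (by norm_num) (by linarith)
    linarith

end Pool.Agent.Helper3.Sey4
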